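import Pool.Agent.H437.NF.Global

/-!
# Double planes and quartic surfaces: definitions
-/

set_option autoImplicit false

namespace Pool.Agent.H437.KT

open Polynomial
open Pool.Agent.H437.NF
open Pool.Agent.Results.MP_308fa9_nt.SuperellipticBrauerSets

universe u

section surfaces

variable {k : Type u} [Field k] [CharZero k]

/-- The linear form `∑ c_i x_i` with coefficients `c_i` in `k[X]`. -/
noncomputable def linearForm {n : ℕ} (c : Fin n → k[X]) : MvPolynomial (Fin n) k[X] :=
  ∑ i, MvPolynomial.C (c i) * MvPolynomial.X i

/-- The points over the extension `E` of `k` of the double plane `a w² = ∏_j N_j(L_j(x, y, z))`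
outside of `w = 0`, where the `L_j` are three linear forms with coefficients in `k[X]/(P_j)` and `N_j`
is the norm.  The surface is branched along six lines. -/
abbrev PlanePoint (a : k) (P : Option (ZMod 2) → ℚ[X]) (c : Option (ZMod 2) → Fin 3 → k[X])
    {E : Type u} [Field E] (ι : k →+* E) : Type u :=
  Point 2 a P (fun j => linearForm (c j)) ι

/-- The points over the extension `E` of `k` of the quartic surface
`∏_{j ≠ g} N_j(F_j(x)) = a N_g(F_g(x))` in `P^3` outside of `F_g = 0`, where `F_j`, `j ≠ g`, are linear
forms and `F_g` is a quadratic form with coefficients in `k[X]/(P_j)` (the definition makes sense for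
all forms). -/
structure QuarticPoint (a : k) (P : Option (ZMod 2) → ℚ[X])
    (F : Option (ZMod 2) → MvPolynomial (Fin 4) k[X]) (g : Option (ZMod 2)) {E : Type u} [Field E]
    (ι : k →+* E) where
  /-- the coordinates -/
  x : Fin 4 → E
  /-- the point is not in `F_g = 0` -/
  ne : normAt (P g) ι (valueAt (F g) ι x) ≠ 0
  /-- the equation -/
  eq : ∏ j ∈ Finset.univ.erase g, normAt (P j) ι (valueAt (F j) ι x) =
    ι a * normAt (P g) ι (valueAt (F g) ι x)

/-- The value at a point of the quartic surface of the function `N_j(F_j(x))`. -/
noncomputable def QuarticPoint.value {a : k} {P : Option (ZMod 2) → ℚ[X]}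
    {F : Option (ZMod 2) → MvPolynomial (Fin 4) k[X]} {g : Option (ZMod 2)} {E : Type u} [Field E]
    {ι : k →+* E} (z : QuarticPoint a P F g ι) (j : Option (ZMod 2)) : E :=
  normAt (P j) ι (valueAt (F j) ι z.x)

/-- The six lines of the double plane are in general position: over the algebraic closure of `k`, the
linear forms obtained from three different pairs of an index `j` and a root `ρ` of `P_j` are linearly
independent. -/
def GeneralPosition (P : Option (ZMod 2) → ℚ[X]) (c : Option (ZMod 2) → Fin 3 → k[X]) : Prop :=
  ∀ s : Fin 3 → Option (ZMod 2) × AlgebraicClosure k, Function.Injective s →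
    (∀ i, aeval (s i).2 (toField k (P (s i).1)) = 0) →
    (Matrix.of fun i j => aeval (s i).2 (c (s i).1 j)).det ≠ 0

end surfaces

end Pool.Agent.H437.KT
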