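import Pool.Agent.H437.KT.Defs

/-!
# Double planes and quartic surfaces: proofs
-/

set_option autoImplicit false
set_option linter.unusedSectionVars false

namespace Pool.Agent.H437.KT

open Polynomial
open Pool.Agent.H437.NF
open Pool.Agent.Results.MP_308fa9_nt.SuperellipticBrauerSets
open Pool.Agent.K3h48.MN (ind ssum Gn kn Good GenBy cs wt)

universe u

lemma two_neg : (-(1 : ZMod 2)) = 1 := by decide

lemma two_ne : (1 : ZMod 2) ≠ 0 := by decide

lemma two_eq (m : ZMod 2) (h : m ≠ 0) : m = 1 := by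
  revert m
  decide

section general

variable {ℓ p q : ℕ} [hℓ : Fact ℓ.Prime] [hp : Fact p.Prime] [hq : Fact q.Prime]
  {χ : (ZMod p)ˣ →* Multiplicative (ZMod ℓ)} {ψ : (ZMod q)ˣ →* Multiplicative (ZMod ℓ)}
  {θ : Option (ZMod ℓ) → CyclotomicField (p * q) ℚ} {σ : Type}
  {k : Type u} [Field k] [NumberField k] {a : k}
  {F : Option (ZMod ℓ) → MvPolynomial σ k[X]}

/-- the sum of the local invariants for adelic points -/
theorem adelic_sum (hG : Good χ ψ) (hθ : ∀ i, GenBy χ ψ (cs i).1 (cs i).2 (θ i)) (ha : a ≠ 0)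
    (L : Type u) [Field L] [NumberField L] [Algebra k L]
    (z : ∀ v : FinitePlace L, Point ℓ a (fun j => minpoly ℚ (θ j)) F
      ((embedding v).comp (algebraMap k L)))
    {m : ZMod ℓ} (hm : m ≠ 0) :
    {v | invariantAt χ v ((z v).value (some (-m))) ≠ 0}.Finite ∧
    ∑ᶠ v, invariantAt χ v ((z v).value (some (-m))) =
      Module.finrank k L * invariant χ ψ m (Algebra.norm ℚ a) := by
  let fam : ∀ v : FinitePlace L, ZeroCycle ℓ a (fun j => minpoly ℚ (θ j)) F
      ((embedding v).comp (algebraMap k L)) := fun v =>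
    [{ mult := 1, field := Completion v, point := z v }]
  have hdeg : ∀ v, ZeroCycle.degree (fam v) = 1 := by
    intro v
    simp [fam, ZeroCycle.degree]
  obtain ⟨h0, h1⟩ := family_sum hG hθ ha L 1 fam hdeg hm
  have h2 : ∀ v, ZeroCycle.localTerm χ v (some (-m)) (fam v) =
      invariantAt χ v ((z v).value (some (-m))) := by
    intro v
    have h3 : ZeroCycle.localTerm χ v (some (-m)) (fam v) = ((1 : ℤ) : ZMod ℓ) *
        invariantAt χ v (Algebra.norm (Completion v)
          ((z v).value (some (-m)))) + 0 := rfl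
    rw [h3, Int.cast_one, one_mul, add_zero]
    congr 1
    have h4 := Algebra.norm_algebraMap (R := Completion v) (S := Completion v)
      ((z v).value (some (-m)))
    rw [Module.finrank_self, pow_one] at h4
    exact h4
  simp_rw [h2] at h0 h1
  rw [Int.cast_one, one_mul] at h1
  exact ⟨h0, h1⟩

end general

section quartic

variable {p q : ℕ} [hp : Fact p.Prime] [hq : Fact q.Prime]
  {θ : Option (ZMod 2) → CyclotomicField (p * q) ℚ}
  {k : Type u} [Field k] [CharZero k] {a : k}
  {F : Option (ZMod 2) → MvPolynomial (Fin 4) k[X]} {g : Option (ZMod 2)}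

/-- the point of the variety attached to a point of the quartic surface -/
noncomputable def QuarticPoint.toPoint {P : Option (ZMod 2) → ℚ[X]} {E : Type u} [Field E]
    {ι : k →+* E} (z : QuarticPoint a P F g ι) : Point 2 a P F ι where
  x := z.x
  w := normAt (P g) ι (valueAt (F g) ι z.x)
  ne := z.ne
  eq := by
    rw [← Finset.mul_prod_erase Finset.univ _ (Finset.mem_univ g), z.eq]
    ring

lemma QuarticPoint.toPoint_value {P : Option (ZMod 2) → ℚ[X]} {E : Type u} [Field E]
    {ι : k →+* E} (z : QuarticPoint a P F g ι) (j : Option (ZMod 2)) :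
    z.toPoint.value j = z.value j := rfl

end quartic

section solubility

variable {p q : ℕ} [hp : Fact p.Prime] [hq : Fact q.Prime]
  {χ : (ZMod p)ˣ →* Multiplicative (ZMod 2)} {ψ : (ZMod q)ˣ →* Multiplicative (ZMod 2)}
  {θ : Option (ZMod 2) → CyclotomicField (p * q) ℚ}
  {k : Type u} [Field k] [CharZero k] {a : k}

/-- the linear forms `x - θ_j z + c_j y` -/
noncomputable def special (c : Option (ZMod 2) → k[X]) : Option (ZMod 2) → Fin 3 → k[X] :=
  fun j => ![1, c j, -X]

theorem plane_point (hG : Good χ ψ) (hθ : ∀ i, GenBy χ ψ (cs i).1 (cs i).2 (θ i)) (ha : a ≠ 0)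
    (c : Option (ZMod 2) → k[X]) {E : Type u} [Field E] (ι : k →+* E)
    (hE : (∃ (r : ℕ) (_ : Fact r.Prime) (_ : Algebra ℚ_[r] E), FiniteDimensional ℚ_[r] E) ∨
      ∃ _ : Algebra ℝ E, FiniteDimensional ℝ E) :
    Nonempty (PlanePoint a (fun j => minpoly ℚ (θ j)) (special c) ι) := by
  have : Fact (Nat.Prime 2) := ⟨Nat.prime_two⟩
  obtain ⟨t, w, hw, h⟩ := exists_tw hG hθ ha ι hE
  refine ⟨⟨![t, 0, 1], w, hw, ?_⟩⟩
  rw [h]
  refine Finset.prod_congr rfl fun j _ => ?_
  congr 1
  simp [valueAt, linearForm, special, Fin.sum_univ_three, MvPolynomial.eval₂_add,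
    MvPolynomial.eval₂_mul]
  ring

/-- the linear forms `x - θ_j z + c_j t`, `j ≠ g`, and the quadratic form
`y (x - θ_g z) + t M(x, y, z, t)` -/
noncomputable def specialQuartic (g : Option (ZMod 2)) (c : Option (ZMod 2) → k[X])
    (M : Fin 4 → k[X]) : Option (ZMod 2) → MvPolynomial (Fin 4) k[X] := fun j =>
  if j = g then MvPolynomial.X 1 * (MvPolynomial.X 0 - MvPolynomial.C X * MvPolynomial.X 2) +
    MvPolynomial.X 3 * linearForm M
  else MvPolynomial.X 0 - MvPolynomial.C X * MvPolynomial.X 2 +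
    MvPolynomial.C (c j) * MvPolynomial.X 3

/-- norms of multiples -/
lemma normAt_C_mul (hG : Good χ ψ) (hθ : ∀ i, GenBy χ ψ (cs i).1 (cs i).2 (θ i))
    {E : Type u} [Field E] (ι : k →+* E) (j : Option (ZMod 2)) (y : E) (D : E[X]) :
    normAt (minpoly ℚ (θ j)) ι (C y * D) = y ^ 2 * normAt (minpoly ℚ (θ j)) ι D := by
  have : Fact (Nat.Prime 2) := ⟨Nat.prime_two⟩
  have hcE : CharZero E := charZero_of_injective_ringHom ι.injective
  rw [normAt_eq, normAt_eq, nrm_mul]
  congr 1
  have hmon : ((minpoly ℚ (θ j)).map (algebraMap ℚ E)).Monic :=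
    (minpoly.monic (Algebra.IsIntegral.isIntegral _)).map _
  have hdegP : ((minpoly ℚ (θ j)).map (algebraMap ℚ E)).natDegree = 2 := by
    rw [natDegree_map, degree_eq hG hθ j]
  let pb := AdjoinRoot.powerBasis hmon.ne_zero
  have hfd : FiniteDimensional E (AdjoinRoot ((minpoly ℚ (θ j)).map (algebraMap ℚ E))) :=
    pb.finite
  have hfr : Module.finrank E (AdjoinRoot ((minpoly ℚ (θ j)).map (algebraMap ℚ E))) = 2 := by
    rw [pb.finrank, AdjoinRoot.powerBasis_dim, hdegP]
  rw [nrm, AdjoinRoot.mk_C]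
  have h8 := Algebra.norm_algebraMap (R := E)
    (S := AdjoinRoot ((minpoly ℚ (θ j)).map (algebraMap ℚ E))) y
  rw [hfr] at h8
  exact h8

theorem quartic_point (hG : Good χ ψ) (hθ : ∀ i, GenBy χ ψ (cs i).1 (cs i).2 (θ i)) (ha : a ≠ 0)
    (g : Option (ZMod 2)) (c : Option (ZMod 2) → k[X]) (M : Fin 4 → k[X]) {E : Type u} [Field E]
    (ι : k →+* E)
    (hE : (∃ (r : ℕ) (_ : Fact r.Prime) (_ : Algebra ℚ_[r] E), FiniteDimensional ℚ_[r] E) ∨
      ∃ _ : Algebra ℝ E, FiniteDimensional ℝ E) :
    Nonempty (QuarticPoint a (fun j => minpoly ℚ (θ j)) (specialQuartic g c M) g ι) := by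
  classical
  have : Fact (Nat.Prime 2) := ⟨Nat.prime_two⟩
  obtain ⟨t, w, hw, h⟩ := exists_tw hG hθ ha ι hE
  have hιa : ι a ≠ 0 := (_root_.map_ne_zero ι).2 ha
  have hne : ∀ j, normAt (minpoly ℚ (θ j)) ι (C t - X) ≠ 0 := by
    intro j hj
    have h1 : ∏ j, normAt (minpoly ℚ (θ j)) ι (C t - X) = 0 :=
      Finset.prod_eq_zero (Finset.mem_univ j) hj
    rw [h1] at h
    exact mul_ne_zero hιa (pow_ne_zero _ hw) h
  set f := normAt (minpoly ℚ (θ g)) ι (C t - X) with hf
  have hv : ∀ j, j ≠ g → valueAt (specialQuartic g c M j) ι ![t, w / f, 1, 0] = C t - X := by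
    intro j hj
    simp [valueAt, specialQuartic, if_neg hj, MvPolynomial.eval₂_add, MvPolynomial.eval₂_sub,
      MvPolynomial.eval₂_mul]
  have hvg : valueAt (specialQuartic g c M g) ι ![t, w / f, 1, 0] = C (w / f) * (C t - X) := by
    simp [valueAt, specialQuartic, MvPolynomial.eval₂_add, MvPolynomial.eval₂_sub,
      MvPolynomial.eval₂_mul]
  have hng : normAt (minpoly ℚ (θ g)) ι (valueAt (specialQuartic g c M g) ι ![t, w / f, 1, 0]) =
      (w / f) ^ 2 * f := by
    rw [hvg, normAt_C_mul hG hθ]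
  refine ⟨⟨![t, w / f, 1, 0], ?_, ?_⟩⟩
  · rw [hng]
    exact mul_ne_zero (pow_ne_zero _ (div_ne_zero hw (hne g))) (hne g)
  · rw [hng]
    have h1 : ∏ j ∈ Finset.univ.erase g, normAt (minpoly ℚ (θ j)) ι
        (valueAt (specialQuartic g c M j) ι ![t, w / f, 1, 0]) =
        ∏ j ∈ Finset.univ.erase g, normAt (minpoly ℚ (θ j)) ι (C t - X) :=
      Finset.prod_congr rfl fun j hj => by rw [hv j (Finset.ne_of_mem_erase hj)]
    rw [h1]
    have h2 := Finset.mul_prod_erase Finset.univ
      (fun j => normAt (minpoly ℚ (θ j)) ι (C t - X)) (Finset.mem_univ g)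
    rw [← h] at h2
    have h3 : f * ∏ j ∈ Finset.univ.erase g, normAt (minpoly ℚ (θ j)) ι (C t - X) =
      ι a * w ^ 2 := h2
    have h4 : f ≠ 0 := hne g
    apply mul_left_cancel₀ h4
    rw [h3]
    field_simp

end solubility

section position

variable {p q : ℕ} [hp : Fact p.Prime] [hq : Fact q.Prime]
  {χ : (ZMod p)ˣ →* Multiplicative (ZMod 2)} {ψ : (ZMod q)ˣ →* Multiplicative (ZMod 2)}
  {θ : Option (ZMod 2) → CyclotomicField (p * q) ℚ}
  {k : Type u} [Field k] [CharZero k]

/-- roots of different polynomials are different -/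
lemma root_ne (hG : Good χ ψ) (hθ : ∀ i, GenBy χ ψ (cs i).1 (cs i).2 (θ i))
    {A : Type*} [Field A] [CharZero A] {i j : Option (ZMod 2)} {ρ : A}
    (hi : aeval ρ (minpoly ℚ (θ i)) = 0) (hj : aeval ρ (minpoly ℚ (θ j)) = 0) : i = j := by
  have : Fact (Nat.Prime 2) := ⟨Nat.prime_two⟩
  by_contra hij
  have hint : ∀ j, IsIntegral ℚ (θ j) := fun j => Algebra.IsIntegral.isIntegral _
  have h1 : IsCoprime (minpoly ℚ (θ i)) (minpoly ℚ (θ j)) := by
    refine (minpoly.irreducible (hint i)).isCoprime_or_dvd _ |>.resolve_right ?_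
    intro h
    exact minpoly_inj hG hθ hij (eq_of_monic_of_associated (minpoly.monic (hint i))
      (minpoly.monic (hint j)) (((minpoly.irreducible (hint i)).dvd_irreducible_iff_associated
        (minpoly.irreducible (hint j))).1 h))
  obtain ⟨x, y, hxy⟩ := h1
  have h2 := congrArg (aeval ρ) hxy
  rw [map_add, map_mul, map_mul, hi, hj, mul_zero, mul_zero, add_zero, map_one] at h2
  exact zero_ne_one h2

/-- the determinant is an affine function -/
lemma det_affine {A : Type*} [Field A] [Algebra k A] (v : Fin 3 → Option (ZMod 2) × A)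
    (u : Option (ZMod 2) → k[X]) : ∃ d : A, ∀ s : k,
      (Matrix.of fun i j => aeval (v i).2
        (special (fun j => (X : k[X]) ^ 2 + C s * u j) (v i).1 j)).det =
      ((Matrix.vandermonde fun i => (v i).2).det) + algebraMap k A s * d := by
  refine ⟨(Matrix.of fun i j => (![1, aeval (v i).2 (u (v i).1), -(v i).2] : Fin 3 → A) j).det,
    fun s => ?_⟩
  rw [Matrix.det_fin_three, Matrix.det_fin_three, Matrix.det_fin_three]
  simp only [Matrix.of_apply, special, Matrix.vandermonde_apply,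
    Matrix.cons_val_zero, Matrix.cons_val_one, Matrix.cons_val, map_one, map_neg, aeval_X,
    map_add, map_mul, map_pow, aeval_C, Fin.val_zero, Fin.val_one, Fin.val_two, pow_zero,
    pow_one]
  ring

/-- the determinant is zero for at most one value of `s` -/
lemma det_finite (hG : Good χ ψ) (hθ : ∀ i, GenBy χ ψ (cs i).1 (cs i).2 (θ i))
    {A : Type*} [Field A] [CharZero A] [Algebra k A] (v : Fin 3 → Option (ZMod 2) × A)
    (hv : Function.Injective v) (hroot : ∀ i, aeval (v i).2 (minpoly ℚ (θ (v i).1)) = 0)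
    (u : Option (ZMod 2) → k[X]) :
    {s : k | (Matrix.of fun i j => aeval (v i).2
        (special (fun j => (X : k[X]) ^ 2 + C s * u j) (v i).1 j)).det = 0}.Finite := by
  obtain ⟨d, hd⟩ := det_affine v u
  have h0 : (Matrix.vandermonde fun i => (v i).2).det ≠ 0 := by
    rw [Matrix.det_vandermonde_ne_zero_iff]
    intro i j hij
    apply hv
    have h1 : (v i).1 = (v j).1 := by
      refine root_ne hG hθ (hroot i) ?_
      have h2 := hroot j
      rw [← show (v i).2 = (v j).2 from hij] at h2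
      exact h2
    exact Prod.ext h1 hij
  refine Set.Subsingleton.finite ?_
  intro s hs s' hs'
  rw [Set.mem_ofPred_eq, hd] at hs hs'
  have h2 : (algebraMap k A s - algebraMap k A s') * d = 0 := by linear_combination hs - hs'
  rcases mul_eq_zero.1 h2 with h3 | h3
  · exact (algebraMap k A).injective (sub_eq_zero.1 h3)
  · rw [h3, mul_zero, add_zero] at hs
    exact absurd hs h0

/-- there are finitely many pairs -/
lemma pairs_finite (θ : Option (ZMod 2) → CyclotomicField (p * q) ℚ) (A : Type*) [Field A]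
    [CharZero A] : {x : Option (ZMod 2) × A | aeval x.2 (minpoly ℚ (θ x.1)) = 0}.Finite := by
  classical
  have hint : ∀ j, IsIntegral ℚ (θ j) := fun j => Algebra.IsIntegral.isIntegral _
  refine Set.Finite.subset (Finset.finite_toSet ((Finset.univ : Finset (Option (ZMod 2))) ×ˢ
    ((Finset.univ : Finset (Option (ZMod 2))).biUnion fun j =>
      (((minpoly ℚ (θ j)).map (algebraMap ℚ A)).roots.toFinset)))) ?_
  rintro ⟨j, ρ⟩ hx
  rw [Finset.mem_coe, Finset.mem_product]
  refine ⟨Finset.mem_univ j, ?_⟩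
  rw [Finset.mem_biUnion]
  refine ⟨j, Finset.mem_univ j, ?_⟩
  rw [Multiset.mem_toFinset, mem_roots ((minpoly.monic (hint j)).map _).ne_zero, IsRoot,
    eval_map, ← aeval_def]
  exact hx

/-- the linear forms `x + (θ_j² + s u_j) y - θ_j z` are in general position for almost all `s` -/
theorem general_position (hG : Good χ ψ) (hθ : ∀ i, GenBy χ ψ (cs i).1 (cs i).2 (θ i))
    (u : Option (ZMod 2) → k[X]) :
    {s : k | ¬ GeneralPosition (fun j => minpoly ℚ (θ j))
      (special fun j => (X : k[X]) ^ 2 + C s * u j)}.Finite := by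
  have hcA : CharZero (AlgebraicClosure k) :=
    charZero_of_injective_ringHom (algebraMap k (AlgebraicClosure k)).injective
  have hae : ∀ (P : ℚ[X]) (ρ : AlgebraicClosure k), aeval ρ (toField k P) = aeval ρ P := by
    intro P ρ
    rw [toField, aeval_def, eval₂_map, aeval_def]
    congr 1
  have hR := (pairs_finite θ (AlgebraicClosure k)).to_subtype
  have hunion : {s : k | ¬ GeneralPosition (fun j => minpoly ℚ (θ j))
      (special fun j => (X : k[X]) ^ 2 + C s * u j)} ⊆
      ⋃ v : {v : Fin 3 → {x : Option (ZMod 2) × AlgebraicClosure k |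
          aeval x.2 (minpoly ℚ (θ x.1)) = 0} // Function.Injective (fun i => (v i).1)},
        {s : k | (Matrix.of fun i j => aeval (v.1 i).1.2
          (special (fun j => (X : k[X]) ^ 2 + C s * u j) (v.1 i).1.1 j)).det = 0} := by
    intro s hs
    rw [Set.mem_ofPred_eq, GeneralPosition] at hs
    push Not at hs
    obtain ⟨v, hv, hroot, hdet⟩ := hs
    rw [Set.mem_iUnion]
    have hmem : ∀ i, aeval (v i).2 (minpoly ℚ (θ (v i).1)) = 0 := fun i => by
      have := hroot i
      rw [hae] at this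
      exact this
    refine ⟨⟨fun i => ⟨v i, hmem i⟩, hv⟩, ?_⟩
    rw [Set.mem_ofPred_eq]
    exact hdet
  refine (Set.finite_iUnion fun v => ?_).subset hunion
  exact det_finite hG hθ (fun i => (v.1 i).1) v.2 (fun i => (v.1 i).2) u

end position

end Pool.Agent.H437.KT
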